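import Pool.Agent.Q30.IMG.Main

/-!
# Expanding partial self-coverings
-/

set_option autoImplicit false

namespace Q30.IMG

open unitInterval
open Pool.Agent.Y462.SS (Closed Wr)

variable {M : Type} [MetricSpace M] {M₁ : Set M}

/-- `f` is locally expanding: short paths are contracted by lifting, with a uniform factor -/
def Expanding (f : M₁ → M) : Prop :=
  ∃ ε : ℝ, 0 < ε ∧ ∃ r : ℝ, 0 ≤ r ∧ r < 1 ∧ ∀ a b : C(I, M), IsLift f a b →
    Metric.diam (Set.range b) ≤ ε → Metric.diam (Set.range a) ≤ r * Metric.diam (Set.range b)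

variable (M) in
/-- loops of small diameter are null-homotopic -/
def SmallLoops : Prop :=
  ∃ δ : ℝ, 0 < δ ∧ ∀ a : C(I, M), a 0 = a 1 → Metric.diam (Set.range a) < δ → Null a

variable {f : M₁ → M}

theorem liftN_comp {n : ℕ} {a b : C(I, M)} (h : LiftN f n a b) (ρ : C(I, I)) :
    LiftN f n (a.comp ρ) (b.comp ρ) := by
  induction n generalizing b with
  | zero =>
    have h1 : a = b := h
    rw [h1]
    rfl
  | succ n ih =>
    obtain ⟨c, hc, hac⟩ := h
    exact ⟨c.comp ρ, fun s => hc (ρ s), ih hac⟩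

theorem liftN_diam {ε r : ℝ} (hr : 0 ≤ r) (hr1 : r < 1)
    (hexp : ∀ a b : C(I, M), IsLift f a b → Metric.diam (Set.range b) ≤ ε →
      Metric.diam (Set.range a) ≤ r * Metric.diam (Set.range b)) {n : ℕ} {a b : C(I, M)}
    (h : LiftN f n a b) (hb : Metric.diam (Set.range b) ≤ ε) :
    Metric.diam (Set.range a) ≤ r ^ n * Metric.diam (Set.range b) := by
  induction n generalizing b with
  | zero =>
    have h1 : a = b := h
    rw [h1, pow_zero, one_mul]
  | succ n ih =>
    obtain ⟨c, hc, hac⟩ := h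
    have h1 := hexp c b hc hb
    have h0 : 0 ≤ Metric.diam (Set.range b) := Metric.diam_nonneg
    have h2 : Metric.diam (Set.range c) ≤ ε := by nlinarith
    have h3 := ih hac h2
    calc Metric.diam (Set.range a) ≤ r ^ n * Metric.diam (Set.range c) := h3
      _ ≤ r ^ n * (r * Metric.diam (Set.range b)) := mul_le_mul_of_nonneg_left h1 (pow_nonneg hr n)
      _ = r ^ (n + 1) * Metric.diam (Set.range b) := by ring

/-- the `j`-th of `N` subintervals -/
noncomputable def sub (N j : ℕ) (h : j < N) : C(I, I) where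
  toFun s := ⟨((j : ℝ) + s) / N, by
    have hN : (0 : ℝ) < N := by exact_mod_cast (by omega : 0 < N)
    have hj : (j : ℝ) + 1 ≤ N := by exact_mod_cast h
    have h0 := s.2.1
    have h1 := s.2.2
    constructor
    · positivity
    · rw [div_le_one hN]
      linarith⟩
  continuous_toFun := by
    apply Continuous.subtype_mk
    fun_prop

theorem sub_coe (N j : ℕ) (h : j < N) (s : I) : ((sub N j h s : I) : ℝ) = ((j : ℝ) + s) / N := rfl

theorem exists_sub (γ : C(I, M)) {ε : ℝ} (hε : 0 < ε) :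
    ∃ N : ℕ, 0 < N ∧ ∀ j (h : j < N), Metric.diam (Set.range (γ.comp (sub N j h))) ≤ ε := by
  have hu : UniformContinuous γ := CompactSpace.uniformContinuous_of_continuous γ.continuous
  obtain ⟨η, hη, hγ⟩ := Metric.uniformContinuous_iff.1 hu ε hε
  obtain ⟨N, hN⟩ := exists_nat_gt (1 / η)
  have hN0 : (0 : ℝ) < N := lt_trans (by positivity) hN
  refine ⟨N, by exact_mod_cast hN0, ?_⟩
  intro j h
  apply Metric.diam_le_of_forall_dist_le hε.le
  rintro _ ⟨s, rfl⟩ _ ⟨s', rfl⟩
  apply le_of_lt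
  apply hγ
  show dist ((sub N j h s : I) : ℝ) ((sub N j h s' : I) : ℝ) < η
  rw [sub_coe, sub_coe, Real.dist_eq, ← sub_div, add_sub_add_left_eq_sub, abs_div,
    abs_of_pos hN0, div_lt_iff₀ hN0]
  have h1 : |(s : ℝ) - s'| ≤ 1 := by
    have := s.2.1
    have := s.2.2
    have := s'.2.1
    have := s'.2.2
    rw [abs_le]
    constructor <;> linarith
  have h2 : 1 < η * N := by
    rw [div_lt_iff₀ hη] at hN
    linarith
  linarith

theorem dist_sub {N : ℕ} (_ : 0 < N) (a : C(I, M)) {D : ℝ}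
    (hD : ∀ j (h : j < N), Metric.diam (Set.range (a.comp (sub N j h))) ≤ D) :
    ∀ j (h : j < N) (s : I), dist (a 0) (a (sub N j h s)) ≤ (j + 1) * D := by
  have hpc : ∀ j (h : j < N) (s s' : I), dist (a (sub N j h s)) (a (sub N j h s')) ≤ D := by
    intro j h s s'
    refine le_trans ?_ (hD j h)
    exact Metric.dist_le_diam_of_mem
      (isCompact_range (a.comp (sub N j h)).continuous).isBounded ⟨s, rfl⟩ ⟨s', rfl⟩
  intro j
  induction j with
  | zero =>
    intro h s
    have h0 : (0 : I) = sub N 0 h 0 := by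
      apply Subtype.ext
      rw [sub_coe]
      simp
    have h1 := hpc 0 h 0 s
    rw [← h0] at h1
    simpa using h1
  | succ j ih =>
    intro h s
    have h0 : sub N (j + 1) h 0 = sub N j (by omega) 1 := by
      apply Subtype.ext
      rw [sub_coe, sub_coe]
      push_cast
      norm_num
    have h1 := hpc (j + 1) h 0 s
    rw [h0] at h1
    have h2 := ih (by omega) 1
    have h3 := dist_triangle (a 0) (a (sub N j (by omega) 1)) (a (sub N (j + 1) h s))
    push_cast
    linarith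

theorem cover_sub {N : ℕ} (hN : 0 < N) (s : I) : ∃ j, ∃ h : j < N, ∃ s', s = sub N j h s' := by
  have hN0 : (0 : ℝ) < N := by exact_mod_cast hN
  by_cases hs : (s : ℝ) = 1
  · refine ⟨N - 1, by omega, 1, ?_⟩
    apply Subtype.ext
    rw [sub_coe, hs, Nat.cast_sub hN]
    push_cast
    field_simp
    ring
  · have hs1 : (s : ℝ) < 1 := lt_of_le_of_ne s.2.2 hs
    have h0 : 0 ≤ (N : ℝ) * s := mul_nonneg hN0.le s.2.1
    have h1 := Nat.floor_le h0
    have h2 := Nat.lt_floor_add_one ((N : ℝ) * s)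
    have h3 : ⌊(N : ℝ) * s⌋₊ < N := by
      rw [Nat.floor_lt h0]
      nlinarith
    refine ⟨⌊(N : ℝ) * s⌋₊, h3, ⟨(N : ℝ) * s - ⌊(N : ℝ) * s⌋₊, by linarith, by linarith⟩, ?_⟩
    apply Subtype.ext
    rw [sub_coe]
    show (s : ℝ) = ((⌊(N : ℝ) * s⌋₊ : ℝ) + ((N : ℝ) * s - ⌊(N : ℝ) * s⌋₊)) / N
    field_simp
    ring

theorem diam_sub {N : ℕ} (hN : 0 < N) (a : C(I, M)) {D : ℝ} (hD0 : 0 ≤ D)
    (hD : ∀ j (h : j < N), Metric.diam (Set.range (a.comp (sub N j h))) ≤ D) :
    Metric.diam (Set.range a) ≤ 2 * (N * D) := by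
  have key : ∀ s : I, dist (a 0) (a s) ≤ N * D := by
    intro s
    obtain ⟨j, h, s', rfl⟩ := cover_sub hN s
    refine (dist_sub hN a hD j h s').trans ?_
    have h1 : (j : ℝ) + 1 ≤ N := by exact_mod_cast h
    exact mul_le_mul_of_nonneg_right h1 hD0
  apply Metric.diam_le_of_forall_dist_le (by positivity)
  rintro _ ⟨s, rfl⟩ _ ⟨s', rfl⟩
  have h1 := dist_triangle_left (a s) (a s') (a 0)
  have h2 := key s
  have h3 := key s'
  linarith

theorem exp_null (hf : Expanding f) (hM : SmallLoops M) (γ : C(I, M))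
    (hγ : ∀ m b, LiftN f m b γ → b 0 = b 1) : ∃ n, ∀ b, LiftN f n b γ → Null b := by
  obtain ⟨ε, hε, r, hr, hr1, hexp⟩ := hf
  obtain ⟨δ, hδ, hnull⟩ := hM
  obtain ⟨N, hN, hNd⟩ := exists_sub γ hε
  have hN0 : (0 : ℝ) < N := by exact_mod_cast hN
  obtain ⟨n, hn⟩ := exists_pow_lt_of_lt_one (show 0 < δ / (2 * (N * ε)) by positivity) hr1
  refine ⟨n, ?_⟩
  intro b hb
  apply hnull b (hγ n b hb)
  have h1 : ∀ j (h : j < N), Metric.diam (Set.range (b.comp (sub N j h))) ≤ r ^ n * ε := by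
    intro j h
    have h2 := liftN_diam hr hr1 hexp (liftN_comp hb (sub N j h)) (hNd j h)
    exact h2.trans (mul_le_mul_of_nonneg_left (hNd j h) (pow_nonneg hr n))
  have h2 := diam_sub hN b (by positivity) h1
  have h3 : 2 * (N * (r ^ n * ε)) < δ := by
    rw [lt_div_iff₀ (by positivity)] at hn
    linarith
  linarith

/-- **iterated monodromy groups** of expanding partial self-coverings -/
theorem img {C : ∀ (G : Type) [Group G], Prop} (hC : Closed C) [PathConnectedSpace M]
    (cov : IsCoveringMap f) (t : M) (hfin : (f ⁻¹' {t}).Finite) (hf : Expanding f)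
    (hM : SmallLoops M) (hπ : C (FundamentalGroup M t)) :
    ∃ (K : Subgroup (FundamentalGroup M t)) (_ : K.Normal),
      (∀ γ : Path t t, FundamentalGroup.fromPath (Path.Homotopic.Quotient.mk γ) ∈ K ↔
        ∀ (n : ℕ) (b : C(I, M)), LiftN f n b (γ : C(I, M)) → b 0 = b 1) ∧
      C (FundamentalGroup M t ⧸ K) := by
  have : Finite (f ⁻¹' {t}) := hfin
  let c : ∀ x : f ⁻¹' {t}, Path t (incl (x : M₁)) := fun x => PathConnectedSpace.somePath _ _
  exact ⟨KK cov t c, inferInstance, mem_KK cov t c (fun γ hγ => exp_null hf hM _ hγ),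
    closed_mem cov t c hC hπ⟩

end Q30.IMG
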