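import Mathlib.Topology.Homotopy.Lifting
import Mathlib.AlgebraicTopology.FundamentalGroupoid.FundamentalGroup
import Mathlib.Topology.Covering.Basic
import Mathlib.Tactic

/-!
# Lifts of paths along a partial self-covering
-/

set_option autoImplicit false

namespace Q30.IMG

open unitInterval

variable {M : Type} [TopologicalSpace M] {M₁ : Set M} (f : M₁ → M)

/-- the path `a` in `M` is a lift of the path `b` along `f : M₁ → M` -/
def IsLift (a b : C(I, M)) : Prop := ∀ s, ∃ h : a s ∈ M₁, f ⟨a s, h⟩ = b s

/-- the path `a` is a lift of the path `b` along the `n`-th iterate of `f` -/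
def LiftN : ℕ → C(I, M) → C(I, M) → Prop
  | 0, a, b => a = b
  | n + 1, a, b => ∃ c, IsLift f c b ∧ LiftN n a c

variable {f}

theorem lift_unique (cov : IsCoveringMap f) {a a' b : C(I, M)} (h : IsLift f a b)
    (h' : IsLift f a' b) (h0 : a 0 = a' 0) : a = a' := by
  have hc : Continuous (fun s => (⟨a s, (h s).choose⟩ : M₁)) := by
    apply Continuous.subtype_mk a.continuous
  have hc' : Continuous (fun s => (⟨a' s, (h' s).choose⟩ : M₁)) := by
    apply Continuous.subtype_mk a'.continuous
  have h1 := cov.eq_of_comp_eq hc hc' (by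
    funext s
    show f ⟨a s, (h s).choose⟩ = f ⟨a' s, (h' s).choose⟩
    rw [(h s).choose_spec, (h' s).choose_spec]) 0 (Subtype.ext h0)
  ext s
  exact congrArg Subtype.val (congrFun h1 s)

theorem lift_exists (cov : IsCoveringMap f) (b : C(I, M)) (e : M₁) (he : f e = b 0) :
    ∃ a : C(I, M), IsLift f a b ∧ a 0 = e := by
  let Γ := cov.liftPath b e he.symm
  refine ⟨⟨fun s => (Γ s : M), continuous_subtype_val.comp Γ.continuous⟩, ?_, ?_⟩
  · intro s
    exact ⟨(Γ s).2, congrFun (cov.liftPath_lifts b e he.symm) s⟩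
  · exact congrArg Subtype.val (cov.liftPath_zero b e he.symm)

theorem lift_homotopic (cov : IsCoveringMap f) {a a' b b' : C(I, M)} (h : IsLift f a b)
    (h' : IsLift f a' b') (hb : b.HomotopicRel b' {0, 1}) (h0 : a 0 = a' 0) :
    a.HomotopicRel a' {0, 1} := by
  obtain ⟨e, he⟩ : ∃ e : M₁, (e : M) = a 0 := ⟨⟨a 0, (h 0).choose⟩, rfl⟩
  have hfe : f e = b 0 := by
    obtain ⟨h1, h2⟩ := h 0
    rw [← h2]
    congr 1
    exact Subtype.ext he
  have hfe' : f e = b' 0 := by
    obtain ⟨h1, h2⟩ := h' 0
    rw [← h2]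
    congr 1
    exact Subtype.ext (he.trans h0)
  have h1 := cov.homotopicRel_liftPath hb e hfe.symm hfe'.symm
  have h2 : a = (⟨Subtype.val, continuous_subtype_val⟩ : C(M₁, M)).comp
      (cov.liftPath b e hfe.symm) := by
    apply lift_unique cov h
    · intro s
      exact ⟨(cov.liftPath b e hfe.symm s).2, congrFun (cov.liftPath_lifts b e hfe.symm) s⟩
    · show a 0 = ((cov.liftPath b e hfe.symm) 0 : M)
      rw [cov.liftPath_zero, he]
  have h3 : a' = (⟨Subtype.val, continuous_subtype_val⟩ : C(M₁, M)).comp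
      (cov.liftPath b' e hfe'.symm) := by
    apply lift_unique cov h'
    · intro s
      exact ⟨(cov.liftPath b' e hfe'.symm s).2, congrFun (cov.liftPath_lifts b' e hfe'.symm) s⟩
    · show a' 0 = ((cov.liftPath b' e hfe'.symm) 0 : M)
      rw [cov.liftPath_zero, he, h0]
  rw [h2, h3]
  exact h1.map fun H => H.compContinuousMap _

/-! ### paths with endpoints -/

theorem lift_path_exists (cov : IsCoveringMap f) {x y : M} (c : Path x y) (e : M₁)
    (he : f e = x) : ∃ (e' : M₁) (a : Path (e : M) (e' : M)), f e' = y ∧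
      IsLift f (a : C(I, M)) (c : C(I, M)) := by
  obtain ⟨a, ha, ha0⟩ := lift_exists cov (c : C(I, M)) e (he.trans c.source.symm)
  obtain ⟨h1, h2⟩ := ha 1
  refine ⟨⟨a 1, h1⟩, ⟨a, ha0, rfl⟩, ?_, ha⟩
  rw [h2]
  exact c.target

theorem lift_trans {x y z x' y' z' : M} {c : Path x y} {d : Path y z} {a : Path x' y'}
    {b : Path y' z'} (ha : IsLift f (a : C(I, M)) (c : C(I, M)))
    (hb : IsLift f (b : C(I, M)) (d : C(I, M))) :
    IsLift f ((a.trans b : Path x' z') : C(I, M)) ((c.trans d : Path x z) : C(I, M)) := by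
  intro s
  by_cases hs : (s : ℝ) ≤ 1 / 2
  · have h1 : (a.trans b) s = a ⟨2 * s, (unitInterval.mul_pos_mem_iff zero_lt_two).2 ⟨s.2.1, hs⟩⟩ := by
      rw [Path.trans_apply, dif_pos hs]
    have h2 : (c.trans d) s = c ⟨2 * s, (unitInterval.mul_pos_mem_iff zero_lt_two).2 ⟨s.2.1, hs⟩⟩ := by
      rw [Path.trans_apply, dif_pos hs]
    obtain ⟨h3, h4⟩ := ha ⟨2 * s, (unitInterval.mul_pos_mem_iff zero_lt_two).2 ⟨s.2.1, hs⟩⟩
    have h5 : (a.trans b) s ∈ M₁ := by rw [h1]; exact h3
    refine ⟨h5, ?_⟩
    show f ⟨(a.trans b) s, h5⟩ = (c.trans d) s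
    rw [h2]
    refine Eq.trans ?_ h4
    congr 1
    exact Subtype.ext h1
  · have h1 : (a.trans b) s = b ⟨2 * s - 1, unitInterval.two_mul_sub_one_mem_iff.2
        ⟨(not_le.1 hs).le, s.2.2⟩⟩ := by
      rw [Path.trans_apply, dif_neg hs]
    have h2 : (c.trans d) s = d ⟨2 * s - 1, unitInterval.two_mul_sub_one_mem_iff.2
        ⟨(not_le.1 hs).le, s.2.2⟩⟩ := by
      rw [Path.trans_apply, dif_neg hs]
    obtain ⟨h3, h4⟩ := hb ⟨2 * s - 1, unitInterval.two_mul_sub_one_mem_iff.2
        ⟨(not_le.1 hs).le, s.2.2⟩⟩
    have h5 : (a.trans b) s ∈ M₁ := by rw [h1]; exact h3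
    refine ⟨h5, ?_⟩
    show f ⟨(a.trans b) s, h5⟩ = (c.trans d) s
    rw [h2]
    refine Eq.trans ?_ h4
    congr 1
    exact Subtype.ext h1

theorem lift_symm {x y x' y' : M} {c : Path x y} {a : Path x' y'}
    (ha : IsLift f (a : C(I, M)) (c : C(I, M))) :
    IsLift f ((a.symm : Path y' x') : C(I, M)) ((c.symm : Path y x) : C(I, M)) := by
  intro s
  exact ha (σ s)

theorem rel_zero {a b : C(I, M)} (h : a.HomotopicRel b {0, 1}) : a 0 = b 0 := by
  obtain ⟨H⟩ := h
  exact (H.eq_fst 0 (x := 0) (by simp)).symm.trans (H.eq_snd 0 (x := 0) (by simp))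

theorem rel_one {a b : C(I, M)} (h : a.HomotopicRel b {0, 1}) : a 1 = b 1 := by
  obtain ⟨H⟩ := h
  exact (H.eq_fst 0 (x := 1) (by simp)).symm.trans (H.eq_snd 0 (x := 1) (by simp))

/-- conjugate of a loop -/
noncomputable def cj {x y : M} (c : Path x y) (g : Path y y) : C(I, M) :=
  (((c.trans g).trans c.symm : Path x x) : C(I, M))

/-- good properties of loops -/
structure Good (P : C(I, M) → Prop) : Prop where
  closed : ∀ a, P a → a 0 = a 1
  hom : ∀ a b, a.HomotopicRel b {0, 1} → P a → P b
  conj : ∀ {x y : M} (c : Path x y) (g : Path y y), P (cj c g) ↔ P (g : C(I, M))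

variable (f) in
/-- the property that the loop is closed and all its lifts have the property `P` -/
def Up (P : C(I, M) → Prop) (a : C(I, M)) : Prop := a 0 = a 1 ∧ ∀ b, IsLift f b a → P b

theorem good_up (cov : IsCoveringMap f) {P : C(I, M) → Prop} (hP : Good P) : Good (Up f P) := by
  refine ⟨fun a ha => ha.1, ?_, ?_⟩
  · rintro a b hab ⟨h0, ha⟩
    have hb0 : a 0 = b 0 := rel_zero hab
    have hb1 : a 1 = b 1 := rel_one hab
    refine ⟨hb0.symm.trans (h0.trans hb1), ?_⟩
    intro b' hb'
    obtain ⟨h1, h2⟩ := hb' 0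
    obtain ⟨a', ha', ha0⟩ := lift_exists cov a ⟨b' 0, h1⟩ (h2.trans hb0.symm)
    exact hP.hom a' b' (lift_homotopic cov ha' hb' hab ha0) (ha a' ha')
  · intro x y c g
    constructor
    · rintro ⟨-, h⟩
      refine ⟨g.source.trans g.target.symm, ?_⟩
      intro g' hg'
      -- the lift of `g` as a path
      obtain ⟨h1, h2⟩ := hg' 0
      obtain ⟨h3, h4⟩ := hg' 1
      obtain ⟨gp, hgp⟩ : ∃ gp : Path (g' 0) (g' 1), (gp : C(I, M)) = g' := ⟨⟨g', rfl, rfl⟩, rfl⟩
      obtain ⟨e, cs, he, hcs⟩ := lift_path_exists cov c.symm ⟨g' 0, h1⟩ (h2.trans g.source)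
      obtain ⟨e', ds, he', hds⟩ := lift_path_exists cov c.symm ⟨g' 1, h3⟩ (h4.trans g.target)
      have hL : IsLift f (((cs.symm.trans gp).trans ds : Path (e : M) (e' : M)) : C(I, M))
          (cj c g) := by
        have h5 := lift_symm hcs
        rw [Path.symm_symm] at h5
        exact lift_trans (lift_trans h5 (by rw [hgp]; exact hg')) hds
      have hPL := h _ hL
      have hcl := hP.closed _ hPL
      have hee : (e : M) = e' := by
        have h6 : ((cs.symm.trans gp).trans ds) 0 = e := Path.source _
        have h7 : ((cs.symm.trans gp).trans ds) 1 = e' := Path.target _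
        exact h6.symm.trans (hcl.trans h7)
      -- the two lifts of `c`
      have h8 : (cs.symm : C(I, M)) = (ds.symm : C(I, M)) := by
        apply lift_unique cov (lift_symm hcs) (lift_symm hds)
        show cs.symm 0 = ds.symm 0
        rw [Path.source, Path.source, hee]
      have h9 : g' 0 = g' 1 := by
        have h10 := congrArg (fun z : C(I, M) => z 1) h8
        have h11 : cs.symm 1 = g' 0 := Path.target _
        have h12 : ds.symm 1 = g' 1 := Path.target _
        exact h11.symm.trans (h10.trans h12)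
      have h13 : (((cs.symm.trans gp).trans ds : Path (e : M) (e' : M)) : C(I, M)) =
          cj cs.symm (gp.cast rfl h9) := by
        ext s
        show ((cs.symm.trans gp).trans ds) s =
          ((cs.symm.trans (gp.cast rfl h9)).trans cs.symm.symm) s
        have h14 : ∀ r, ds r = cs r := by
          intro r
          have h15 := congrArg (fun z : C(I, M) => z (σ r)) h8
          have h16 : cs (σ (σ r)) = ds (σ (σ r)) := h15
          rw [unitInterval.symm_symm] at h16
          exact h16.symm
        rw [Path.trans_apply, Path.trans_apply]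
        split_ifs
        · rw [Path.trans_apply, Path.trans_apply]
          split_ifs
          · rfl
          · rfl
        · rw [Path.symm_symm, h14]
      rw [h13] at hPL
      have h17 := (hP.conj cs.symm (gp.cast rfl h9)).1 hPL
      rw [← hgp]
      exact h17
    · rintro ⟨-, h⟩
      refine ⟨?_, ?_⟩
      · have h6 : ((c.trans g).trans c.symm) 0 = x := Path.source _
        have h7 : ((c.trans g).trans c.symm) 1 = x := Path.target _
        exact h6.trans h7.symm
      · intro A hA
        obtain ⟨h1, h2⟩ := hA 0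
        have h2' : f ⟨A 0, h1⟩ = x := h2.trans (Path.source _)
        obtain ⟨e, c', he, hc'⟩ := lift_path_exists cov c ⟨A 0, h1⟩ h2'
        obtain ⟨e', g', he', hg'⟩ := lift_path_exists cov g e he
        have hPg := h _ hg'
        have hcl : (e : M) = e' := by
          have h6 : g' 0 = e := Path.source _
          have h7 : g' 1 = e' := Path.target _
          exact h6.symm.trans ((hP.closed _ hPg).trans h7)
        have h3 : A = cj c' (g'.cast rfl hcl) := by
          apply lift_unique cov hA
          · refine lift_trans (lift_trans hc' ?_) (lift_symm hc')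
            exact hg'
          · exact (Path.source _).symm
        rw [h3]
        exact (hP.conj c' (g'.cast rfl hcl)).2 hPg

/-- the loop is closed -/
theorem good_closed : Good (fun a : C(I, M) => a 0 = a 1) := by
  refine ⟨fun a ha => ha, ?_, ?_⟩
  · intro a b hab h0
    have hb0 : a 0 = b 0 := rel_zero hab
    have hb1 : a 1 = b 1 := rel_one hab
    exact hb0.symm.trans (h0.trans hb1)
  · intro x y c g
    constructor
    · intro _
      exact g.source.trans g.target.symm
    · intro _
      exact (Path.source _).trans (Path.target _).symm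

/-- the loop is homotopic to a constant loop relative to the endpoints -/
def Null (a : C(I, M)) : Prop := a.HomotopicRel (ContinuousMap.const I (a 0)) {0, 1}

theorem null_path {x : M} (g : Path x x) :
    Null (g : C(I, M)) ↔ Path.Homotopic g (Path.refl x) := by
  have h1 : (ContinuousMap.const I ((g : C(I, M)) 0)) = ((Path.refl x : Path x x) : C(I, M)) := by
    ext s
    exact g.source
  unfold Null
  rw [h1]
  rfl

theorem null_closed (a : C(I, M)) (h : Null a) : a 0 = a 1 := by
  exact (rel_one h).symm

theorem good_null : Good (Null : C(I, M) → Prop) := by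
  refine ⟨null_closed, ?_, ?_⟩
  · intro a b hab ha
    have hb0 : a 0 = b 0 := rel_zero hab
    unfold Null
    rw [← hb0]
    exact hab.symm.trans ha
  · intro x y c g
    rw [cj, null_path, null_path]
    rw [← Path.Homotopic.Quotient.eq, ← Path.Homotopic.Quotient.eq]
    obtain ⟨c', hc'⟩ : ∃ c', c' = Path.Homotopic.Quotient.mk c := ⟨_, rfl⟩
    obtain ⟨g', hg'⟩ : ∃ g', g' = Path.Homotopic.Quotient.mk g := ⟨_, rfl⟩
    rw [Path.Homotopic.Quotient.mk_trans, Path.Homotopic.Quotient.mk_trans,
      Path.Homotopic.Quotient.mk_symm, ← hc', ← hg', Path.Homotopic.Quotient.mk_refl,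
      Path.Homotopic.Quotient.mk_refl]
    constructor
    · intro h
      have h1 : c'.trans g' = c' := by
        have h2 := congrArg (fun z => z.trans c') h
        simp only [Path.Homotopic.Quotient.trans_assoc, Path.Homotopic.Quotient.symm_trans,
          Path.Homotopic.Quotient.trans_refl, Path.Homotopic.Quotient.refl_trans] at h2
        exact h2
      have h3 := congrArg (fun z => c'.symm.trans z) h1
      simp only [← Path.Homotopic.Quotient.trans_assoc, Path.Homotopic.Quotient.symm_trans,
        Path.Homotopic.Quotient.refl_trans] at h3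
      exact h3
    · intro h
      rw [h, Path.Homotopic.Quotient.trans_refl, Path.Homotopic.Quotient.trans_symm]

end Q30.IMG
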