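import Pool.Agent.Q30.IMG.Rec

/-!
# Iterated monodromy groups: the kernel
-/

set_option autoImplicit false

namespace Q30.IMG

open unitInterval
open Pool.Agent.Y462.SS (Closed Wr)
open Pool.Agent.Y331.SS (Kn Kn_zero mem_Kn_succ Kn_mono)

variable {M : Type} [TopologicalSpace M] {M₁ : Set M} {f : M₁ → M} (cov : IsCoveringMap f) (t : M)
  (c : ∀ x : f ⁻¹' {t}, Path t (incl (x : M₁)))

/-- properties of classes of loops -/
def hat (P : C(I, M) → Prop) (g : FundamentalGroup M t) : Prop :=
  ∃ γ : Path t t, FundamentalGroup.fromPath (Path.Homotopic.Quotient.mk γ) = g ∧ P (γ : C(I, M))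

theorem hat_mk {P : C(I, M) → Prop} (hP : Good P) (γ : Path t t) :
    hat t P (FundamentalGroup.fromPath (Path.Homotopic.Quotient.mk γ)) ↔ P (γ : C(I, M)) := by
  constructor
  · rintro ⟨γ', h, hγ'⟩
    have h1 : γ'.Homotopic γ := Path.Homotopic.Quotient.exact h
    exact hP.hom _ _ h1 hγ'
  · intro h
    exact ⟨γ, rfl, h⟩

theorem lift_fibre (cov : IsCoveringMap f) (γ : Path t t) (x : f ⁻¹' {t}) :
    ∃ (e' : f ⁻¹' {t}) (Γ : Path (x : M₁) (e' : M₁)), ∀ s, f (Γ s) = γ s := by
  have h0 : (γ : C(I, M)) 0 = f x := γ.source.trans x.2.symm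
  have h1 := cov.liftPath_lifts (γ : C(I, M)) x h0
  have h2 := cov.liftPath_zero (γ : C(I, M)) x h0
  have h3 : ∀ s, f (cov.liftPath (γ : C(I, M)) x h0 s) = γ s := fun s => congrFun h1 s
  refine ⟨⟨cov.liftPath (γ : C(I, M)) x h0 1, ?_⟩, ⟨cov.liftPath (γ : C(I, M)) x h0, h2, rfl⟩, h3⟩
  show f _ = t
  rw [h3 1, γ.target]

theorem rec_eq (γ : Path t t) (x e' : f ⁻¹' {t}) (Γ : Path (x : M₁) (e' : M₁))
    (hΓ : ∀ s, f (Γ s) = γ s) :
    cov.monodromy (Path.Homotopic.Quotient.mk γ) x = e' ∧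
    (rec cov t c (FundamentalGroup.fromPath (Path.Homotopic.Quotient.mk γ))).s x =
      FundamentalGroup.fromPath (Path.Homotopic.Quotient.mk
        (((c x).trans (Γ.map incl.continuous)).trans (c e').symm)) := by
  have h := sec_eq cov t c (FundamentalGroup.fromPath (Path.Homotopic.Quotient.mk γ)) x e'
    (Path.Homotopic.Quotient.mk Γ) (by
    refine congrArg Path.Homotopic.Quotient.mk ?_
    ext s
    exact hΓ s)
  exact ⟨h.1, h.2⟩

theorem lift_of_path (γ : Path t t) (x e' : f ⁻¹' {t}) (Γ : Path (x : M₁) (e' : M₁))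
    (hΓ : ∀ s, f (Γ s) = γ s) :
    IsLift f ((Γ.map incl.continuous : Path (incl (x : M₁)) (incl (e' : M₁))) : C(I, M))
      (γ : C(I, M)) := by
  intro s
  exact ⟨(Γ s).2, hΓ s⟩

theorem step {P : C(I, M) → Prop} (hP : Good P) (g : FundamentalGroup M t) :
    hat t (Up f P) g ↔ (rec cov t c g).p = 1 ∧ ∀ x, hat t P ((rec cov t c g).s x) := by
  obtain ⟨γ, rfl⟩ : ∃ γ : Path t t, FundamentalGroup.fromPath (Path.Homotopic.Quotient.mk γ) = g :=
    Path.Homotopic.Quotient.mk_surjective g
  rw [hat_mk t (good_up cov hP)]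
  constructor
  · rintro ⟨-, h⟩
    have key : ∀ x : f ⁻¹' {t}, cov.monodromy (Path.Homotopic.Quotient.mk γ) x = x ∧ hat t P
        ((rec cov t c (FundamentalGroup.fromPath (Path.Homotopic.Quotient.mk γ))).s x) := by
      intro x
      obtain ⟨e', Γ, hΓ⟩ := lift_fibre t cov γ x
      have h1 := h _ (lift_of_path t γ x e' Γ hΓ)
      have h2 := hP.closed _ h1
      have h3 : x = e' := by
        have h4 : (Γ.map incl.continuous) 0 = incl (x : M₁) := Path.source _
        have h5 : (Γ.map incl.continuous) 1 = incl (e' : M₁) := Path.target _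
        have h6 : incl (x : M₁) = incl (e' : M₁) := h4.symm.trans (h2.trans h5)
        exact Subtype.ext (Subtype.ext h6)
      subst h3
      obtain ⟨h7, h8⟩ := rec_eq cov t c γ x x Γ hΓ
      refine ⟨h7, ?_⟩
      rw [h8, hat_mk t hP]
      exact (hP.conj (c x) (Γ.map incl.continuous)).2 h1
    constructor
    · ext x
      exact congrArg (fun z : f ⁻¹' {t} => ((z : M₁) : M)) (key x).1
    · exact fun x => (key x).2
  · rintro ⟨hp, h⟩
    refine ⟨γ.source.trans γ.target.symm, ?_⟩
    intro b hb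
    obtain ⟨h1, h2⟩ := hb 0
    obtain ⟨x, hx⟩ : ∃ x : f ⁻¹' {t}, (x : M₁) = ⟨b 0, h1⟩ := ⟨⟨⟨b 0, h1⟩, h2.trans γ.source⟩, rfl⟩
    obtain ⟨e', Γ, hΓ⟩ := lift_fibre t cov γ x
    obtain ⟨h7, h8⟩ := rec_eq cov t c γ x e' Γ hΓ
    have h9 : x = e' := by
      have h10 := congrArg (fun z : Equiv.Perm (f ⁻¹' {t}) => z x) hp
      have h11 : cov.monodromy (Path.Homotopic.Quotient.mk γ) x = x := h10
      rw [← h7, h11]
    subst h9
    have h12 := h x
    rw [h8, hat_mk t hP] at h12
    have h13 := (hP.conj (c x) (Γ.map incl.continuous)).1 h12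
    have h14 : b = ((Γ.map incl.continuous : Path (incl (x : M₁)) (incl (x : M₁))) : C(I, M)) := by
      apply lift_unique cov hb (lift_of_path t γ x x Γ hΓ)
      have h15 : (Γ.map incl.continuous) 0 = incl (x : M₁) := Path.source _
      show b 0 = (Γ.map incl.continuous) 0
      rw [h15, hx]
      rfl
    rw [h14]
    exact h13

variable (f) in
/-- all lifts of level `n` are null-homotopic, and the lifts of lower level are closed -/
def UpN : ℕ → C(I, M) → Prop
  | 0 => Null
  | n + 1 => Up f (UpN n)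

theorem good_upN (cov : IsCoveringMap f) (n : ℕ) : Good (UpN f n) := by
  induction n with
  | zero => exact good_null
  | succ n ih => exact good_up cov ih

theorem hat_null (g : FundamentalGroup M t) : hat t Null g ↔ g = 1 := by
  constructor
  · rintro ⟨γ, rfl, h⟩
    rw [null_path] at h
    exact Path.Homotopic.Quotient.eq.2 h
  · rintro rfl
    exact ⟨Path.refl t, rfl, (null_path _).2 (Path.Homotopic.refl _)⟩

theorem mem_Kn (n : ℕ) (g : FundamentalGroup M t) :
    g ∈ Kn (rec cov t c) n ↔ hat t (UpN f n) g := by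
  induction n generalizing g with
  | zero =>
    rw [Kn_zero, Subgroup.mem_bot]
    exact (hat_null t g).symm
  | succ n ih =>
    rw [mem_Kn_succ]
    have h := step cov t c (good_upN cov n) g
    simp only [ih]
    exact h.symm

theorem upN_closed {N : ℕ} {a : C(I, M)} (h : UpN f N a) :
    ∀ m, m ≤ N → ∀ b, LiftN f m b a → b 0 = b 1 := by
  induction N generalizing a with
  | zero =>
    intro m hm b hb
    have hm0 : m = 0 := by omega
    subst hm0
    have hba : b = a := hb
    rw [hba]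
    exact null_closed a h
  | succ N ih =>
    intro m hm b hb
    cases m with
    | zero =>
      have hba : b = a := hb
      rw [hba]
      exact h.1
    | succ m =>
      obtain ⟨d, hd, hbd⟩ := hb
      exact ih (h.2 d hd) m (by omega) b hbd

theorem upN_of {N : ℕ} {a : C(I, M)} (h1 : ∀ m b, LiftN f m b a → b 0 = b 1)
    (h2 : ∀ b, LiftN f N b a → Null b) : UpN f N a := by
  induction N generalizing a with
  | zero => exact h2 a rfl
  | succ N ih =>
    refine ⟨h1 0 a rfl, ?_⟩
    intro d hd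
    apply ih
    · intro m b hb
      exact h1 (m + 1) b ⟨d, hd, hb⟩
    · intro b hb
      exact h2 b ⟨d, hd, hb⟩

/-- the union of the kernels -/
noncomputable def KK : Subgroup (FundamentalGroup M t) where
  carrier := {g | ∃ n, g ∈ Kn (rec cov t c) n}
  one_mem' := ⟨0, Subgroup.one_mem _⟩
  mul_mem' := by
    rintro a b ⟨n, hn⟩ ⟨m, hm⟩
    exact ⟨max n m, Subgroup.mul_mem _ (Kn_mono _ (le_max_left n m) hn)
      (Kn_mono _ (le_max_right n m) hm)⟩
  inv_mem' := by
    rintro a ⟨n, hn⟩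
    exact ⟨n, Subgroup.inv_mem _ hn⟩

instance : (KK cov t c).Normal := by
  constructor
  rintro a ⟨n, hn⟩ g
  exact ⟨n, Subgroup.Normal.conj_mem inferInstance a hn g⟩

/-- the kernel of the iterated monodromy action, if all loops in it have null-homotopic lifts -/
theorem mem_KK (hexp : ∀ γ : Path t t, (∀ m b, LiftN f m b (γ : C(I, M)) → b 0 = b 1) →
      ∃ n, ∀ b, LiftN f n b (γ : C(I, M)) → Null b) (γ : Path t t) :
    FundamentalGroup.fromPath (Path.Homotopic.Quotient.mk γ) ∈ KK cov t c ↔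
      ∀ n b, LiftN f n b (γ : C(I, M)) → b 0 = b 1 := by
  constructor
  · rintro ⟨n, hn⟩ m b hb
    have h1 := Kn_mono _ (le_max_left n m) hn
    rw [mem_Kn, hat_mk t (good_upN cov _)] at h1
    exact upN_closed h1 m (le_max_right n m) b hb
  · intro h
    obtain ⟨n, hn⟩ := hexp γ h
    refine ⟨n, ?_⟩
    rw [mem_Kn, hat_mk t (good_upN cov _)]
    exact upN_of h hn

theorem closed_mem {C : ∀ (G : Type) [Group G], Prop} (hC : Closed C) [Finite (f ⁻¹' {t})]
    (hπ : C (FundamentalGroup M t)) : C (FundamentalGroup M t ⧸ KK cov t c) := by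
  refine Pool.Agent.Y331.SS.t_lim Pool.Agent.Y812.SS.t_wr C hC (f ⁻¹' {t})
    (FundamentalGroup M t) inferInstance (rec cov t c) hπ (KK cov t c) ?_
  intro g
  rw [Pool.Agent.Y331.SS.dies_iff]
  rfl

end Q30.IMG
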