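import Pool.Agent.Q30.IMG.Lift
import Pool.Agent.Y331.SS.Lim
import Pool.Agent.Y812.SS.Wr

/-!
# The wreath recursion of a partial self-covering
-/

set_option autoImplicit false

namespace Q30.IMG

open unitInterval
open Pool.Agent.Y462.SS (Closed Wr)

/-- the inclusion -/
def incl {M : Type} [TopologicalSpace M] {M₁ : Set M} : C(M₁, M) :=
  ⟨Subtype.val, continuous_subtype_val⟩

variable {M : Type} [TopologicalSpace M] {M₁ : Set M} {f : M₁ → M} (cov : IsCoveringMap f) (t : M)
  (c : ∀ x : f ⁻¹' {t}, Path t (incl (x : M₁)))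

theorem galg {t p q r : M} (a : Path.Homotopic.Quotient t p) (u : Path.Homotopic.Quotient p q)
    (b : Path.Homotopic.Quotient t q) (v : Path.Homotopic.Quotient q r)
    (d : Path.Homotopic.Quotient t r) : (a.trans (u.trans v)).trans d.symm =
      ((a.trans u).trans b.symm).trans ((b.trans v).trans d.symm) := by
  simp only [Path.Homotopic.Quotient.trans_assoc]
  rw [← Path.Homotopic.Quotient.trans_assoc b.symm b, Path.Homotopic.Quotient.symm_trans,
    Path.Homotopic.Quotient.refl_trans]

/-- the section of a loop at a point of the fibre -/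
noncomputable def sec (g : FundamentalGroup M t) (x : f ⁻¹' {t}) : FundamentalGroup M t :=
  FundamentalGroup.fromPath (((Path.Homotopic.Quotient.mk (c x)).trans
    ((cov.liftPathQuotient (FundamentalGroup.toPath g) x).map incl)).trans
    (Path.Homotopic.Quotient.mk (c (cov.monodromy (FundamentalGroup.toPath g) x))).symm)

theorem sec_eq (g : FundamentalGroup M t) (e e' : f ⁻¹' {t})
    (Γ : Path.Homotopic.Quotient (e : M₁) (e' : M₁))
    (h : Γ.map ⟨f, cov.continuous⟩ = (FundamentalGroup.toPath g).cast e.2 e'.2) :
    cov.monodromy (FundamentalGroup.toPath g) e = e' ∧ sec cov t c g e =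
      FundamentalGroup.fromPath (((Path.Homotopic.Quotient.mk (c e)).trans (Γ.map incl)).trans
        (Path.Homotopic.Quotient.mk (c e')).symm) := by
  have h1 := cov.monodromy_eq_of_map_eq Γ h
  subst h1
  refine ⟨rfl, ?_⟩
  have h2 : cov.liftPathQuotient (FundamentalGroup.toPath g) e = Γ := by
    apply cov.injective_path_homotopic_map
    show (cov.liftPathQuotient (FundamentalGroup.toPath g) e).map ⟨f, cov.continuous⟩ =
      Γ.map ⟨f, cov.continuous⟩
    rw [cov.map_liftPathQuotient, h]
  unfold sec
  rw [h2]

theorem sec_one (x : f ⁻¹' {t}) : sec cov t c 1 x = 1 := by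
  have h := (sec_eq cov t c 1 x x (Path.Homotopic.Quotient.refl (x : M₁)) (by
    refine congrArg Path.Homotopic.Quotient.mk ?_
    ext s
    exact x.2)).2
  rw [h]
  have h1 : (Path.Homotopic.Quotient.refl (x : M₁)).map incl =
    Path.Homotopic.Quotient.refl (incl (x : M₁)) := rfl
  rw [h1, Path.Homotopic.Quotient.trans_refl, Path.Homotopic.Quotient.trans_symm]
  rfl

theorem cast_trans {x y z x' y' z' : M} (g : Path.Homotopic.Quotient x y) (h : Path.Homotopic.Quotient y z) (hx : x' = x)
    (hy : y' = y) (hz : z' = z) :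
    (g.cast hx hy).trans (h.cast hy hz) = (g.trans h).cast hx hz := by
  subst hx hy hz
  simp

theorem map_trans {X Y : Type} [TopologicalSpace X] [TopologicalSpace Y] {x y z : X}
    (g : Path.Homotopic.Quotient x y) (h : Path.Homotopic.Quotient y z) (F : C(X, Y)) :
    (g.trans h).map F = (g.map F).trans (h.map F) := by
  induction g, h using Path.Homotopic.Quotient.ind₂ with | mk g h =>
  rw [← Path.Homotopic.Quotient.mk_trans, ← Path.Homotopic.Quotient.mk_map, ← Path.Homotopic.Quotient.mk_map, ← Path.Homotopic.Quotient.mk_map,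
    ← Path.Homotopic.Quotient.mk_trans, Path.map_trans]

theorem sec_mul (g h : FundamentalGroup M t) (x : f ⁻¹' {t}) :
    sec cov t c (g * h) x =
      sec cov t c g (cov.monodromy (FundamentalGroup.toPath h) x) * sec cov t c h x := by
  obtain ⟨y, hy⟩ : ∃ y, y = cov.monodromy (FundamentalGroup.toPath h) x := ⟨_, rfl⟩
  obtain ⟨z, hz⟩ : ∃ z, z = cov.monodromy (FundamentalGroup.toPath g) y := ⟨_, rfl⟩
  have h1 := cov.map_liftPathQuotient (FundamentalGroup.toPath h) x
  have h2 := cov.map_liftPathQuotient (FundamentalGroup.toPath g)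
    (cov.monodromy (FundamentalGroup.toPath h) x)
  have h3 := (sec_eq cov t c (g * h) x _ ((cov.liftPathQuotient (FundamentalGroup.toPath h) x).trans
    (cov.liftPathQuotient (FundamentalGroup.toPath g)
      (cov.monodromy (FundamentalGroup.toPath h) x))) (by
    rw [map_trans, h1, h2]
    exact cast_trans _ _ _ _ _)).2
  rw [h3, map_trans]
  exact galg _ _ _ _ _

/-- the wreath recursion -/
noncomputable def rec : FundamentalGroup M t →* Wr (f ⁻¹' {t}) (FundamentalGroup M t) where
  toFun g := ⟨sec cov t c g, cov.monodromyPerm t g⟩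
  map_one' := by
    apply Wr.ext
    · funext x
      exact sec_one cov t c x
    · exact map_one _
  map_mul' g h := by
    apply Wr.ext
    · funext x
      exact sec_mul cov t c g h x
    · exact map_mul _ _ _

end Q30.IMG
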